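import Pool.Agent.H61.KV.TN
import Pool.Agent.H25.Star.HullCompact

/-!
# KV, module CNC: the cone of a configuration
-/

open Topology Set
open Pool.Agent.H59 Pool.Agent.H64.LB Pool.Agent.H61.KU Pool.Agent.H61.KV

namespace Pool.Agent.H68.KV.CNC

/-- The cone over a compact set in an open half space is closed. -/
theorem cone_closed {V : Type} [NormedAddCommGroup V] [NormedSpace ℝ V] [FiniteDimensional ℝ V]
    (K : Set V) (hK : IsCompact K) (e : V →ₗ[ℝ] ℝ) (he : ∀ q ∈ K, 0 < e q) :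
    IsClosed {p | ∃ (c : ℝ) (q : V), 0 ≤ c ∧ q ∈ K ∧ p = c • q} := by
  have hec : Continuous e := LinearMap.continuous_of_finiteDimensional e
  rcases K.eq_empty_or_nonempty with hne | hne
  · have : {p | ∃ (c : ℝ) (q : V), 0 ≤ c ∧ q ∈ K ∧ p = c • q} = ∅ := by
      rw [Set.eq_empty_iff_forall_notMem]
      rintro p ⟨c, q, -, hq, -⟩
      rw [hne] at hq
      exact hq
    rw [this]
    exact isClosed_empty
  · obtain ⟨q0, hq0, hmin⟩ := hK.exists_isMinOn hne hec.continuousOn
    have hd : 0 < e q0 := he q0 hq0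
    have hd2 : ∀ q ∈ K, e q0 ≤ e q := fun q hq => hmin hq
    rw [← closure_subset_iff_isClosed]
    intro p hp
    set R : ℝ := (|e p| + 1) / e q0 with hR
    set S : Set V := (fun z : ℝ × V => z.1 • z.2) '' (Icc (0 : ℝ) R ×ˢ K) with hS
    have hSc : IsCompact S := (isCompact_Icc.prod hK).image (by fun_prop)
    have hU : IsOpen {v : V | e v < |e p| + 1} := isOpen_lt hec continuous_const
    have hpU : p ∈ {v : V | e v < |e p| + 1} := by
      show e p < |e p| + 1
      linarith [le_abs_self (e p)]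
    have h1 := hU.inter_closure ⟨hpU, hp⟩
    have h2 : ({v : V | e v < |e p| + 1} ∩
        {p | ∃ (c : ℝ) (q : V), 0 ≤ c ∧ q ∈ K ∧ p = c • q}) ⊆ S := by
      rintro v ⟨hv, c, q, hc, hq, rfl⟩
      refine ⟨(c, q), ⟨⟨hc, ?_⟩, hq⟩, rfl⟩
      have hv2 : c * e q < |e p| + 1 := by
        have : e (c • q) < |e p| + 1 := hv
        rwa [map_smul, smul_eq_mul] at this
      show c ≤ R
      rw [hR, le_div_iff₀ hd]
      have := mul_le_mul_of_nonneg_left (hd2 q hq) hc
      linarith
    have h3 := closure_minimal h2 hSc.isClosed h1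
    obtain ⟨⟨c, q⟩, ⟨⟨hc, -⟩, hq⟩, hcq⟩ := h3
    exact ⟨c, q, hc, hq, hcq.symm⟩

theorem cn_add {V : Type} [NormedAddCommGroup V] [NormedSpace ℝ V] (m : PN 2 → V) (p q : V)
    (hp : p ∈ Cn m) (hq : q ∈ Cn m) : p + q ∈ Cn m := by
  obtain ⟨c, u, hc, hu, rfl⟩ := hp
  obtain ⟨d, v, hd, hv, rfl⟩ := hq
  rcases (add_nonneg hc hd).eq_or_lt with h0 | h0
  · have hc0 : c = 0 := by linarith
    have hd0 : d = 0 := by linarith
    exact ⟨0, u, le_rfl, hu, by rw [hc0, hd0]; simp⟩
  · refine ⟨c + d, (c / (c + d)) • u + (d / (c + d)) • v, h0.le, ?_, ?_⟩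
    · refine convex_convexHull ℝ _ hu hv (by positivity) (by positivity) ?_
      field_simp
    · rw [smul_add, smul_smul, smul_smul, mul_div_cancel₀ _ h0.ne', mul_div_cancel₀ _ h0.ne']

theorem cn_smul {V : Type} [NormedAddCommGroup V] [NormedSpace ℝ V] (m : PN 2 → V) (c : ℝ)
    (hc : 0 ≤ c) (p : V) (hp : p ∈ Cn m) : c • p ∈ Cn m := by
  obtain ⟨d, u, hd, hu, rfl⟩ := hp
  exact ⟨c * d, u, mul_nonneg hc hd, hu, by rw [smul_smul]⟩

theorem mem_cn {V : Type} [NormedAddCommGroup V] [NormedSpace ℝ V] (m : PN 2 → V) (x : PN 2) :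
    m x ∈ Cn m :=
  ⟨1, m x, zero_le_one, subset_convexHull ℝ _ (mem_range_self x), (one_smul ℝ _).symm⟩

theorem cn_sum {V : Type} [NormedAddCommGroup V] [NormedSpace ℝ V] (m : PN 2 → V) (x0 : PN 2)
    {ι : Type} (s : Finset ι) (a : ι → ℝ) (z : ι → V) (ha : ∀ i ∈ s, 0 ≤ a i)
    (hz : ∀ i ∈ s, z i ∈ Cn m) : ∑ i ∈ s, a i • z i ∈ Cn m := by
  classical
  induction s using Finset.induction_on with
  | empty =>
    rw [Finset.sum_empty]
    exact ⟨0, m x0, le_rfl, subset_convexHull ℝ _ (mem_range_self x0), by simp⟩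
  | insert i s hi ih =>
    rw [Finset.sum_insert hi]
    exact cn_add m _ _ (cn_smul m _ (ha i (Finset.mem_insert_self i s)) _
      (hz i (Finset.mem_insert_self i s))) (ih (fun j hj => ha j (Finset.mem_insert_of_mem hj))
      (fun j hj => hz j (Finset.mem_insert_of_mem hj)))

theorem pf_CNC (h : T_XHO) : T_CNC := by
  classical
  intro V _ _ _ m hm
  obtain ⟨hpc, -, -, -, -, hcs, -⟩ := h
  obtain ⟨e, he⟩ := hm.pos
  have hx0 : Nonempty (PN 2) := hpc.nonempty
  obtain ⟨x0⟩ := hx0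
  have hrc : IsCompact (range m) := isCompact_range hm.cont
  have hKc : IsCompact (convexHull ℝ (range m)) :=
    Pool.Agent.H25.Star.isCompact_convexHull hrc
  have heK : ∀ q ∈ convexHull ℝ (range m), 0 < e q := by
    have h1 : convexHull ℝ (range m) ⊆ {q | 0 < e q} := by
      refine convexHull_min ?_ ?_
      · rintro _ ⟨x, rfl⟩
        exact he x
      · intro u hu v hv a b ha hb hab
        have hu' : 0 < e u := hu
        have hv' : 0 < e v := hv
        show 0 < e (a • u + b • v)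
        rw [map_add, map_smul, map_smul, smul_eq_mul, smul_eq_mul]
        rcases ha.eq_or_lt with h0 | h0
        · have hb1 : b = 1 := by linarith
          rw [← h0, hb1]; linarith
        · have := mul_pos h0 hu'
          have := mul_nonneg hb hv'.le
          linarith
    exact h1
  have hmn : ∀ x, m x ≠ 0 := by
    intro x h0
    have := he x
    rw [h0, map_zero] at this
    exact lt_irrefl _ this
  have hCC : IsCC (Cn m) := by
    refine ⟨?_, fun p hp q hq => cn_add m p q hp hq, fun c hc p hp => cn_smul m c hc p hp, ?_, ?_⟩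
    · exact ⟨0, m x0, le_rfl, subset_convexHull ℝ _ (mem_range_self x0), by simp⟩
    · exact cone_closed _ hKc e heK
    · refine ⟨e, ?_⟩
      rintro _ ⟨c, q, hc, hq, rfl⟩ hne
      rw [map_smul, smul_eq_mul]
      rcases hc.eq_or_lt with h0 | h0
      · exact absurd (by rw [← h0, zero_smul]) hne
      · exact mul_pos h0 (heK q hq)
  refine ⟨hCC, ?_, mem_cn m, hmn, ?_, ?_, ?_, ?_⟩
  · rw [eq_top_iff, ← hm.span]
    refine Submodule.span_mono ?_
    rintro _ ⟨x, rfl⟩
    exact mem_cn m x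
  · rintro _ ⟨c, x, hc, rfl⟩
    exact cn_smul m c hc _ (mem_cn m x)
  · have h1 := cone_closed _ hrc e (by rintro _ ⟨x, rfl⟩; exact he x)
    have h2 : Mh m = {p | ∃ (c : ℝ) (q : V), 0 ≤ c ∧ q ∈ range m ∧ p = c • q} := by
      ext p
      constructor
      · rintro ⟨c, x, hc, hp⟩
        exact ⟨c, m x, hc, mem_range_self x, hp⟩
      · rintro ⟨c, q, hc, ⟨x, rfl⟩, hp⟩
        exact ⟨c, x, hc, hp⟩
    rw [h2]
    exact h1
  · rintro c hc _ ⟨d, x, hd, rfl⟩
    exact ⟨c * d, x, mul_nonneg hc hd, by rw [smul_smul]⟩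
  · rintro _ ⟨c, q, hc, hq, rfl⟩ hne
    have hc0 : 0 < c := by
      rcases hc.eq_or_lt with h0 | h0
      · exact absurd (by rw [← h0, zero_smul]) hne
      · exact h0
    obtain ⟨ι, hι, w, z, hw, hw1, hz, hzq⟩ := mem_convexHull_iff_exists_fintype.mp hq
    obtain ⟨i, hi⟩ : ∃ i, 0 < w i := by
      by_contra hcon
      push Not at hcon
      have h0 : ∑ i, w i = 0 :=
        Finset.sum_eq_zero (fun i _ => le_antisymm (hcon i) (hw i))
      rw [hw1] at h0
      exact one_ne_zero h0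
    obtain ⟨x, hx⟩ := hz i
    refine ⟨x, mem_cn m x, (c * w i)⁻¹, by positivity, ?_⟩
    have hsum : (c * w i)⁻¹ • c • q - m x = ∑ j ∈ Finset.univ.erase i, (w j / w i) • z j := by
      have h1 : (c * w i)⁻¹ • c • q = ∑ j, (w j / w i) • z j := by
        rw [← hzq, Finset.smul_sum, Finset.smul_sum]
        refine Finset.sum_congr rfl (fun j _ => ?_)
        rw [smul_smul, smul_smul]
        congr 1
        field_simp
      rw [h1, ← Finset.add_sum_erase Finset.univ _ (Finset.mem_univ i), div_self hi.ne', one_smul,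
        hx, add_sub_cancel_left]
    rw [hsum]
    refine cn_sum m x0 _ _ _ (fun j _ => div_nonneg (hw j) hi.le) ?_
    intro j _
    obtain ⟨y, hy⟩ := hz j
    rw [← hy]
    exact mem_cn m y

end Pool.Agent.H68.KV.CNC
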