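import Pool.Agent.H61.KV.TN

/-!
# KV, module CRF: coordinates on a face
-/

open Topology Set
open Pool.Agent.H59 Pool.Agent.H64.LB Pool.Agent.H61.KU Pool.Agent.H61.KV

namespace Pool.Agent.H68.KV.CRF

/-- A closed cone has a compact base. -/
theorem base_compact {V : Type} [NormedAddCommGroup V] [NormedSpace ℝ V] [FiniteDimensional ℝ V]
    (C : Set V) (e : V →ₗ[ℝ] ℝ) (hC : IsCC C) (he : ∀ q ∈ C, q ≠ 0 → 0 < e q) :
    IsCompact {q | q ∈ C ∧ e q = 1} := by
  have hec : Continuous e := LinearMap.continuous_of_finiteDimensional e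
  have hclosed : IsClosed {q | q ∈ C ∧ e q = 1} :=
    hC.closed.inter (isClosed_eq hec continuous_const)
  have hS : IsCompact (C ∩ Metric.sphere (0 : V) 1) :=
    (isCompact_sphere (0 : V) 1).inter_left hC.closed
  have hbd : ∃ M : ℝ, ∀ q ∈ C, e q = 1 → ‖q‖ ≤ M := by
    rcases (C ∩ Metric.sphere (0 : V) 1).eq_empty_or_nonempty with h0 | h0
    · refine ⟨0, fun q hq hq1 => ?_⟩
      by_contra hcon
      push Not at hcon
      have h1 : ‖q‖⁻¹ • q ∈ C ∩ Metric.sphere (0 : V) 1 := by
        refine ⟨hC.smul _ (inv_nonneg.2 hcon.le) q hq, ?_⟩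
        rw [mem_sphere_zero_iff_norm, norm_smul, norm_inv, norm_norm, inv_mul_cancel₀ hcon.ne']
      rw [h0] at h1
      exact h1
    · obtain ⟨q0, hq0, hmin⟩ := hS.exists_isMinOn h0 hec.continuousOn
      have hq0n : q0 ≠ 0 := by
        intro h1
        have h2 := hq0.2
        rw [mem_sphere_zero_iff_norm, h1, norm_zero] at h2
        exact zero_ne_one h2
      have hd : 0 < e q0 := he q0 hq0.1 hq0n
      refine ⟨(e q0)⁻¹, fun q hq hq1 => ?_⟩
      have hqn : q ≠ 0 := by
        intro h1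
        rw [h1, map_zero] at hq1
        exact zero_ne_one hq1
      have hn : 0 < ‖q‖ := norm_pos_iff.2 hqn
      have h1 : ‖q‖⁻¹ • q ∈ C ∩ Metric.sphere (0 : V) 1 := by
        refine ⟨hC.smul _ (inv_nonneg.2 hn.le) q hq, ?_⟩
        rw [mem_sphere_zero_iff_norm, norm_smul, norm_inv, norm_norm, inv_mul_cancel₀ hn.ne']
      have h2 : e q0 ≤ e (‖q‖⁻¹ • q) := hmin h1
      rw [map_smul, hq1, smul_eq_mul, mul_one] at h2
      rw [le_inv_comm₀ hn hd]
      exact h2
  obtain ⟨M, hM⟩ := hbd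
  refine (isCompact_closedBall (0 : V) M).of_isClosed_subset hclosed ?_
  rintro q ⟨hq, hq1⟩
  rw [mem_closedBall_zero_iff]
  exact hM q hq hq1

theorem cc_convex {V : Type} [NormedAddCommGroup V] [NormedSpace ℝ V] (C : Set V)
    (hC : IsCC C) : Convex ℝ C := by
  intro u hu v hv a b ha hb _
  exact hC.add _ (hC.smul a ha u hu) _ (hC.smul b hb v hv)

theorem pf_CRF (h : T_FCB) : T_CRF := by
  intro V _ _ _ C e p d hC he hp hep hfr
  obtain ⟨f1, f2, f3, f4, f5, f6, f7⟩ := h V C p hC hp
  set S := Sp C p with hS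
  have hpS : p ∈ S := Submodule.subset_span f1
  set eS : S →ₗ[ℝ] ℝ := e.domRestrict S with heS
  have hker : Module.finrank ℝ (LinearMap.ker eS) = d + 1 := by
    have h1 := LinearMap.finrank_range_add_finrank_ker eS
    have h2 : LinearMap.range eS = ⊤ := by
      rw [LinearMap.range_eq_top]
      intro c
      refine ⟨c • ⟨p, hpS⟩, ?_⟩
      rw [map_smul]
      show c • e p = c
      rw [hep, smul_eq_mul, mul_one]
    rw [h2, finrank_top, Module.finrank_self, hfr] at h1
    omega
  have L : (Fin (d + 1) → ℝ) ≃ₗ[ℝ] LinearMap.ker eS :=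
    LinearEquiv.ofFinrankEq _ _ (by rw [hker, Module.finrank_fin_fun])
  set j0 : (Fin (d + 1) → ℝ) →ₗ[ℝ] V :=
    S.subtype.comp ((LinearMap.ker eS).subtype.comp L.toLinearMap) with hj0
  have hj0S : ∀ y, j0 y ∈ S := fun y => ((L y : LinearMap.ker eS) : S).2
  have hj0e : ∀ y, e (j0 y) = 0 := fun y => (L y).2
  have hj0inj : Function.Injective j0 := by
    intro y y' hy
    apply L.injective
    apply Subtype.ext
    apply Subtype.ext
    exact hy
  have hj0surj : ∀ v ∈ S, e v = 0 → ∃ y, j0 y = v := by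
    intro v hv hv0
    obtain ⟨y, hy⟩ := L.surjective ⟨⟨v, hv⟩, hv0⟩
    refine ⟨y, ?_⟩
    show (((L y : LinearMap.ker eS) : S) : V) = v
    rw [hy]
  set j : (Fin (d + 1) → ℝ) →ᵃ[ℝ] V :=
    { toFun := fun y => p + j0 y
      linear := j0
      map_vadd' := fun y v => by
        simp only [vadd_eq_add, map_add]
        abel } with hj
  have hjy : ∀ y, j y = p + j0 y := fun y => rfl
  have hjinj : Function.Injective j := by
    intro y y' hy
    rw [hjy, hjy] at hy
    exact hj0inj (add_left_cancel hy)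
  have hj0' : j 0 = p := by rw [hjy, map_zero, add_zero]
  have hjS : ∀ y, j y ∈ S ∧ e (j y) = 1 := by
    intro y
    refine ⟨S.add_mem hpS (hj0S y), ?_⟩
    rw [hjy, map_add, hep, hj0e, add_zero]
  have hjsurj : ∀ v ∈ S, e v = 1 → ∃ y, j y = v := by
    intro v hv hv1
    obtain ⟨y, hy⟩ := hj0surj (v - p) (S.sub_mem hv hpS) (by rw [map_sub, hv1, hep, sub_self])
    exact ⟨y, by rw [hjy, hy, add_sub_cancel]⟩
  have hemb : IsClosedEmbedding (fun y => p + j0 y) := by
    have h1 : IsClosedEmbedding j0 :=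
      LinearMap.isClosedEmbedding_of_injective (LinearMap.ker_eq_bot.2 hj0inj)
    exact (Homeomorph.addLeft p).isClosedEmbedding.comp h1
  have hconv : Convex ℝ (j ⁻¹' Fc C p) := (cc_convex _ f2).affine_preimage j
  have hcomp : IsCompact (j ⁻¹' Fc C p) := by
    have h1 : IsCompact {q | q ∈ Fc C p ∧ e q = 1} :=
      base_compact _ e f2 (fun q hq hq0 => he q hq.1 hq0)
    have h2 := hemb.isCompact_preimage h1
    have h3 : j ⁻¹' Fc C p = (fun y => p + j0 y) ⁻¹' {q | q ∈ Fc C p ∧ e q = 1} := by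
      ext y
      constructor
      · intro hy
        exact ⟨hy, (hjS y).2⟩
      · intro hy
        exact hy.1
    rw [h3]
    exact h2
  have hint : (0 : Fin (d + 1) → ℝ) ∈ interior (j ⁻¹' Fc C p) := by
    have hε : ∀ i : Fin (d + 1), ∃ ε > 0, ∀ δ : ℝ, |δ| ≤ ε →
        p + δ • j0 (Pi.single i 1) ∈ Fc C p := by
      intro i
      obtain ⟨ε1, h1, h2⟩ := f6 _ (hj0S (Pi.single i 1))
      obtain ⟨ε2, h3, h4⟩ := f6 _ (S.neg_mem (hj0S (Pi.single i 1)))
      refine ⟨min ε1 ε2, lt_min h1 h3, fun δ hδ => ?_⟩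
      rcases le_total 0 δ with h0 | h0
      · rw [abs_of_nonneg h0] at hδ
        exact h2 δ h0 (hδ.trans (min_le_left _ _))
      · rw [abs_of_nonpos h0] at hδ
        have := h4 (-δ) (by linarith) (hδ.trans (min_le_right _ _))
        rwa [smul_neg, neg_smul, neg_neg] at this
    choose ε hε1 hε2 using hε
    obtain ⟨i0, -, hi0⟩ := Finset.exists_min_image Finset.univ ε ⟨0, Finset.mem_univ 0⟩
    rw [mem_interior]
    refine ⟨Metric.ball 0 (ε i0 / (d + 1)), ?_, Metric.isOpen_ball,
      Metric.mem_ball_self (div_pos (hε1 i0) (by positivity))⟩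
    intro y hy
    rw [mem_ball_zero_iff] at hy
    show p + j0 y ∈ Fc C p
    have hdpos : (0 : ℝ) < d + 1 := by positivity
    have hsum : p + j0 y = ∑ i : Fin (d + 1), ((d : ℝ) + 1)⁻¹ •
        (p + (((d : ℝ) + 1) * y i) • j0 (Pi.single i 1)) := by
      have h1 : y = ∑ i : Fin (d + 1), y i • (Pi.single i (1 : ℝ) : Fin (d + 1) → ℝ) := by
        funext k
        rw [Finset.sum_apply, Finset.sum_eq_single k]
        · simp
        · intro b _ hb
          simp [Pi.single_apply, hb.symm]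
        · intro hk
          exact absurd (Finset.mem_univ k) hk
      have h2 : j0 y = ∑ i : Fin (d + 1), y i • j0 (Pi.single i 1) := by
        conv_lhs => rw [h1]
        rw [map_sum]
        exact Finset.sum_congr rfl (fun i _ => map_smul _ _ _)
      rw [h2]
      simp only [smul_add, smul_smul, Finset.sum_add_distrib, Finset.sum_const, Finset.card_univ,
        Fintype.card_fin]
      congr 1
      · rw [← Nat.cast_smul_eq_nsmul ℝ, smul_smul]
        push_cast
        rw [mul_inv_cancel₀ hdpos.ne', one_smul]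
      · refine Finset.sum_congr rfl (fun i _ => ?_)
        congr 1
        field_simp
    rw [hsum]
    refine (cc_convex _ f2).sum_mem (fun i _ => (inv_pos.2 hdpos).le) ?_ ?_
    · rw [Finset.sum_const, Finset.card_univ, Fintype.card_fin, nsmul_eq_mul]
      push_cast
      exact mul_inv_cancel₀ hdpos.ne'
    · intro i _
      refine hε2 i _ ?_
      rw [abs_mul, abs_of_pos hdpos]
      have h3 : |y i| ≤ ‖y‖ := by
        have := norm_le_pi_norm y i
        rwa [Real.norm_eq_abs] at this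
      have h4 : |y i| ≤ ε i0 / (d + 1) := h3.trans hy.le
      rw [le_div_iff₀ hdpos] at h4
      have h5 := hi0 i (Finset.mem_univ i)
      linarith
  refine ⟨j, hjinj, hj0', hjS, hjsurj, hcomp, hconv, hint, ?_⟩
  intro y hy
  have hyK : y ∈ j ⁻¹' Fc C p := hcomp.isClosed.frontier_subset hy
  refine ⟨hyK, ?_⟩
  rintro ⟨-, c, hc, hcp⟩
  have hnint : y ∉ interior (j ⁻¹' Fc C p) := fun h1 => hy.2 h1
  have hec : e (c • j y - p) = c - 1 := by
    rw [map_sub, map_smul, (hjS y).2, hep, smul_eq_mul, mul_one]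
  by_cases h0 : c • j y - p = 0
  · have hc1 : c = 1 := by
      rw [h0, map_zero] at hec
      linarith
    rw [hc1, one_smul, sub_eq_zero, ← hj0'] at h0
    have h1 := hjinj h0
    rw [h1] at hnint
    exact hnint hint
  · have hc1 : 0 < c - 1 := by
      rw [← hec]
      exact he _ hcp h0
    have hrC : (c - 1)⁻¹ • (c • j y - p) ∈ C := hC.smul _ (inv_nonneg.2 hc1.le) _ hcp
    have hrS : (c - 1)⁻¹ • (c • j y - p) ∈ S :=
      S.smul_mem _ (S.sub_mem (S.smul_mem _ (hjS y).1) hpS)
    have hrF := f5 _ hrC hrS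
    have hre : e ((c - 1)⁻¹ • (c • j y - p)) = 1 := by
      rw [map_smul, hec, smul_eq_mul, inv_mul_cancel₀ hc1.ne']
    obtain ⟨y'', hy''⟩ := hjsurj _ hrS hre
    have hcpos : 0 < c := by linarith
    have hyeq : y = c⁻¹ • (0 : Fin (d + 1) → ℝ) + (1 - c⁻¹) • y'' := by
      rw [smul_zero, zero_add]
      apply hj0inj
      rw [map_smul]
      have h1 : j0 y'' = (c - 1)⁻¹ • (c • j y - p) - p := by
        rw [← hy'', hjy, add_sub_cancel_left]
      rw [h1, hjy y]
      have h2 : (c - 1)⁻¹ • (c • (p + j0 y) - p) - p = ((c - 1)⁻¹ * c) • j0 y := by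
        have h3 : c • (p + j0 y) - p = (c - 1) • p + c • j0 y := by
          rw [smul_add, sub_smul, one_smul]; abel
        rw [h3, smul_add, smul_smul, smul_smul, inv_mul_cancel₀ hc1.ne', one_smul,
          add_sub_cancel_left]
      rw [h2, smul_smul]
      have h4 : (1 - c⁻¹) * ((c - 1)⁻¹ * c) = 1 := by
        field_simp
      rw [h4, one_smul]
    apply hnint
    rw [hyeq]
    refine hconv.combo_interior_self_mem_interior hint ?_ (inv_pos.2 hcpos) ?_ (by ring)
    · show j y'' ∈ Fc C p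
      rw [hy'']
      exact hrF
    · rw [sub_nonneg]
      exact inv_le_one_of_one_le₀ (by linarith)

end Pool.Agent.H68.KV.CRF
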