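import Pool.Agent.H61.KV.TN

/-!
# KV, module LFM: lifting maps to the projective plane
-/

open Topology Set
open Pool.Agent.H59 Pool.Agent.H64.LB Pool.Agent.H61.KU Pool.Agent.H61.KV

namespace Pool.Agent.H68.KV.LFM

theorem pf_LFM (h : T_XHO) : T_LFM := by
  intro V _ _ _ m hm Y _ φ hφ hφ2
  obtain ⟨-, -, -, -, -, hcs, -⟩ := h
  obtain ⟨e, he⟩ := hm.pos
  have hec : Continuous e := LinearMap.continuous_of_finiteDimensional e
  set mb : PN 2 → V := fun x => (e (m x))⁻¹ • m x with hmb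
  have hmbc : Continuous mb := by
    refine Continuous.smul (Continuous.inv₀ (hec.comp hm.cont) (fun x => (he x).ne')) hm.cont
  have hinj : Function.Injective mb := by
    intro x y hxy
    refine hm.inj x y (e (m y) * (e (m x))⁻¹) (mul_pos (he y) (inv_pos.2 (he x))) ?_
    have h1 : e (m y) • mb y = m y := by
      rw [hmb]
      show e (m y) • ((e (m y))⁻¹ • m y) = m y
      rw [smul_smul, mul_inv_cancel₀ (he y).ne', one_smul]
    calc m y = e (m y) • mb y := h1.symm
      _ = e (m y) • mb x := by rw [hxy]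
      _ = (e (m y) * (e (m x))⁻¹) • m x := by
        rw [hmb]
        show e (m y) • ((e (m x))⁻¹ • m x) = _
        rw [smul_smul]
  have hemb : IsClosedEmbedding mb := hmbc.isClosedEmbedding hinj
  have hpos : ∀ y, ∃ x : PN 2, 0 < e (φ y) ∧ mb x = (e (φ y))⁻¹ • φ y := by
    intro y
    obtain ⟨⟨c, x, hc, hx⟩, hne⟩ := hφ2 y
    have hc0 : 0 < c := by
      rcases hc.eq_or_lt with h0 | h0
      · exact absurd (by rw [hx, ← h0, zero_smul]) hne
      · exact h0
    have h1 : e (φ y) = c * e (m x) := by rw [hx, map_smul, smul_eq_mul]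
    refine ⟨x, by rw [h1]; exact mul_pos hc0 (he x), ?_⟩
    rw [h1, hx, smul_smul, hmb]
    show (e (m x))⁻¹ • m x = _
    congr 1
    have := (he x).ne'
    field_simp
  choose ψ hψ1 hψ2 using hpos
  have hψc : Continuous ψ := by
    rw [hemb.isInducing.continuous_iff]
    have h1 : mb ∘ ψ = fun y => (e (φ y))⁻¹ • φ y := by
      funext y
      exact hψ2 y
    rw [h1]
    exact Continuous.smul (Continuous.inv₀ (hec.comp hφ) (fun y => (hψ1 y).ne')) hφ
  refine ⟨⟨ψ, hψc⟩, ?_⟩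
  intro y
  refine ⟨e (φ y) * (e (m (ψ y)))⁻¹, mul_pos (hψ1 y) (inv_pos.2 (he _)), ?_⟩
  have h1 : φ y = e (φ y) • mb (ψ y) := by
    rw [hψ2 y, smul_smul, mul_inv_cancel₀ (hψ1 y).ne', one_smul]
  conv_lhs => rw [h1]
  rw [hmb]
  show e (φ y) • ((e (m (ψ y)))⁻¹ • m (ψ y)) = _
  rw [smul_smul]
  rfl

end Pool.Agent.H68.KV.LFM
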